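import Pool.Agent.Y794.Sm.Stmts

/-!
The growth bound and the passage from real weights to permutations (job 220 of helper794,
MP_ed3ef1_nt).
-/

set_option autoImplicit false

namespace Pool.Agent.Y500.Sm

open Finset

/-- T3b: the growth bound from the contraction property. -/
theorem stGrow : Pool.Agent.Y794.Sm.StGrow := by
  classical
  intro n T X p N hN hfin ⟨c, C0, hc0, hc1, hx⟩ f hf0 hf1 δ hδ
  set C : ℝ := max C0 0 with hC
  have hC0 : 0 ≤ C := le_max_right _ _
  have hCC : C0 ≤ C := le_max_left _ _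
  -- the basic estimate
  have key : ∀ (t : T) (B : ℝ), 0 ≤ B → (∀ t', N t' ≤ c * N t + C → ∀ j, |f j t'| ≤ B) →
      ∀ i, |f i t| ≤ (n : ℝ) ^ 2 * B := by
    intro t B hB h i
    have hlow : ∀ i, -((n : ℝ) * B) ≤ f i t := by
      intro i
      obtain ⟨x, hx1, hx2⟩ := hx i t
      have h1 := hf1 x
      rw [← Finset.add_sum_erase _ _ (Finset.mem_univ i), hx1] at h1
      have h2 : ∑ j ∈ Finset.univ.erase i, f j (p j x) ≤ (n : ℝ) * B := by
        calc ∑ j ∈ Finset.univ.erase i, f j (p j x) ≤ ∑ j ∈ Finset.univ.erase i, B := by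
              apply Finset.sum_le_sum
              intro j hj
              have hji := (Finset.mem_erase.mp hj).1
              exact (le_abs_self _).trans (h _ (by linarith [hx2 j hji]) j)
          _ = ((Finset.univ.erase i).card : ℝ) * B := by rw [Finset.sum_const, nsmul_eq_mul]
          _ ≤ (n : ℝ) * B := by
              apply mul_le_mul_of_nonneg_right _ hB
              have : (Finset.univ.erase i).card ≤ n := by
                calc (Finset.univ.erase i).card ≤ (Finset.univ : Finset (Fin n)).card :=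
                      Finset.card_le_card (Finset.erase_subset _ _)
                  _ = n := by simp
              exact_mod_cast this
      linarith
    have hn : (1 : ℝ) ≤ n := by
      have : 0 < n := Fin.pos i
      exact_mod_cast this
    rw [abs_le]
    constructor
    · have h3 := hlow i
      have h4 : (n : ℝ) * B ≤ (n : ℝ) ^ 2 * B := by
        rw [pow_two, mul_assoc]
        exact le_mul_of_one_le_left (by positivity) hn
      linarith
    · have h5 := hf0 t
      rw [← Finset.add_sum_erase _ _ (Finset.mem_univ i)] at h5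
      have h6 : -((n : ℝ) * ((n : ℝ) * B)) ≤ ∑ j ∈ Finset.univ.erase i, f j t := by
        have h8 : ∑ j ∈ Finset.univ.erase i, (-((n : ℝ) * B)) ≤
            ∑ j ∈ Finset.univ.erase i, f j t := Finset.sum_le_sum fun j _ => hlow j
        rw [Finset.sum_const, nsmul_eq_mul] at h8
        have h9 : ((Finset.univ.erase i).card : ℝ) ≤ n := by
          have : (Finset.univ.erase i).card ≤ n := by
            calc (Finset.univ.erase i).card ≤ (Finset.univ : Finset (Fin n)).card :=
                  Finset.card_le_card (Finset.erase_subset _ _)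
              _ = n := by simp
          exact_mod_cast this
        have h10 : ((Finset.univ.erase i).card : ℝ) * ((n : ℝ) * B) ≤ n * (n * B) :=
          mul_le_mul_of_nonneg_right h9 (by positivity)
        linarith
      nlinarith
  -- choice of the radius
  obtain ⟨R, hR1, hR2⟩ : ∃ R : ℝ, (∀ r, R ≤ r → c * r + C < r) ∧
      (∀ r, R ≤ r → (n : ℝ) ^ 2 * Real.exp (δ * C) ≤ Real.exp (δ * ((1 - c) * r))) := by
    have h1c : 0 < 1 - c := by linarith
    refine ⟨max ((C + 1) / (1 - c)) (Real.log ((n : ℝ) ^ 2 * Real.exp (δ * C) + 1) / (δ * (1 - c))),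
      ?_, ?_⟩
    · intro r hr
      have := (le_max_left _ _).trans hr
      rw [div_le_iff₀ h1c] at this
      linarith
    · intro r hr
      have := (le_max_right _ _).trans hr
      rw [div_le_iff₀ (by positivity)] at this
      calc (n : ℝ) ^ 2 * Real.exp (δ * C) ≤ (n : ℝ) ^ 2 * Real.exp (δ * C) + 1 := by linarith
        _ = Real.exp (Real.log ((n : ℝ) ^ 2 * Real.exp (δ * C) + 1)) := by
            rw [Real.exp_log]; positivity
        _ ≤ Real.exp (δ * ((1 - c) * r)) := by
            apply Real.exp_le_exp.mpr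
            linarith
  set A : ℝ := ∑ t ∈ (hfin R).toFinset, ∑ i, |f i t| with hA
  have hA0 : 0 ≤ A := Finset.sum_nonneg fun _ _ => Finset.sum_nonneg fun _ _ => abs_nonneg _
  refine ⟨A, ?_⟩
  by_contra hcon
  push Not at hcon
  obtain ⟨i0, t0, h0⟩ := hcon
  -- a minimal bad point
  set bad : Finset T := (hfin (N t0)).toFinset.filter
    (fun t => ∃ i, A * Real.exp (δ * N t) < |f i t|) with hbad
  have hne : bad.Nonempty := ⟨t0, by simp [hbad]; exact ⟨i0, h0⟩⟩
  obtain ⟨t1, ht1, hmin⟩ := Finset.exists_min_image bad N hne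
  simp only [hbad, Finset.mem_filter, Set.Finite.mem_toFinset, Set.mem_ofPred_eq] at ht1 hmin
  obtain ⟨ht1a, i1, hi1⟩ := ht1
  have hgood : ∀ t, N t < N t1 → ∀ i, |f i t| ≤ A * Real.exp (δ * N t) := by
    intro t ht i
    by_contra hh
    push Not at hh
    have := hmin t ⟨by linarith, i, hh⟩
    linarith
  rcases le_or_gt (N t1) R with hcase | hcase
  · have h1 : |f i1 t1| ≤ A := by
      calc |f i1 t1| ≤ ∑ i, |f i t1| :=
            Finset.single_le_sum (f := fun i => |f i t1|) (fun _ _ => abs_nonneg _)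
              (Finset.mem_univ i1)
        _ ≤ A := by
            rw [hA]
            exact Finset.single_le_sum (f := fun t => ∑ i, |f i t|)
              (fun _ _ => Finset.sum_nonneg fun _ _ => abs_nonneg _) (by simpa using hcase)
    have h2 : 1 ≤ Real.exp (δ * N t1) := Real.one_le_exp (mul_nonneg hδ.le (hN _))
    have h3 : A ≤ A * Real.exp (δ * N t1) := le_mul_of_one_le_right hA0 h2
    linarith
  · have h1 := key t1 (A * Real.exp (δ * (c * N t1 + C))) (by positivity) (by
      intro t' ht' j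
      refine (hgood t' (lt_of_le_of_lt ht' (hR1 _ hcase.le)) j).trans ?_
      apply mul_le_mul_of_nonneg_left _ hA0
      apply Real.exp_le_exp.mpr
      exact mul_le_mul_of_nonneg_left ht' hδ.le) i1
    have h2 := hR2 _ hcase.le
    have h3 : (n : ℝ) ^ 2 * (A * Real.exp (δ * (c * N t1 + C))) ≤ A * Real.exp (δ * N t1) := by
      calc (n : ℝ) ^ 2 * (A * Real.exp (δ * (c * N t1 + C)))
          = A * Real.exp (δ * (c * N t1)) * ((n : ℝ) ^ 2 * Real.exp (δ * C)) := by
            rw [mul_add, Real.exp_add]; ring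
        _ ≤ A * Real.exp (δ * (c * N t1)) * Real.exp (δ * ((1 - c) * N t1)) := by
            apply mul_le_mul_of_nonneg_left h2; positivity
        _ = A * Real.exp (δ * N t1) := by
            rw [mul_assoc, ← Real.exp_add]; congr 2; ring
    linarith

/-- Finitely many positive reals have positive images under some `ℚ`-linear map to `ℚ`. -/
theorem exists_pos_functional (F : Finset ℝ) (hF : ∀ y ∈ F, 0 < y) :
    ∃ φ : ℝ →ₗ[ℚ] ℚ, ∀ y ∈ F, 0 < φ y := by
  classical
  set V : Submodule ℚ ℝ := Submodule.span ℚ (F : Set ℝ) with hV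
  have : Module.Finite ℚ V := Module.Finite.iff_fg.mpr (Submodule.fg_span F.finite_toSet)
  set e := Module.finBasis ℚ V with he
  set d := Module.finrank ℚ V with hd
  have hmem : ∀ y : F, (y : ℝ) ∈ V := fun y => Submodule.subset_span y.2
  -- the open set of parameters
  set U : Set (Fin d → ℝ) := {t | ∀ y : F, 0 < ∑ k, ((e.repr ⟨y, hmem y⟩ k : ℚ) : ℝ) * t k} with hU
  have hUo : IsOpen U := by
    rw [hU, Set.ofPred_forall]
    apply isOpen_iInter_of_finite
    intro y
    exact isOpen_lt continuous_const (by fun_prop)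
  have hUe : (fun k => ((e k : V) : ℝ)) ∈ U := by
    intro y
    have h1 : (y : ℝ) = ∑ k, ((e.repr ⟨y, hmem y⟩ k : ℚ) : ℝ) * ((e k : V) : ℝ) := by
      have h2 := congrArg (Subtype.val) (e.sum_repr ⟨y, hmem y⟩)
      simp only [Submodule.coe_sum, Submodule.coe_smul] at h2
      refine h2.symm.trans ?_
      refine Finset.sum_congr rfl fun k _ => ?_
      rw [Rat.smul_def]
    show 0 < ∑ k, ((e.repr ⟨y, hmem y⟩ k : ℚ) : ℝ) * ((e k : V) : ℝ)
    rw [← h1]
    exact hF _ y.2
  have hdense : DenseRange (fun (q : Fin d → ℚ) (k : Fin d) => ((q k : ℚ) : ℝ)) := by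
    have : DenseRange (Pi.map (fun (_ : Fin d) (q : ℚ) => (q : ℝ))) :=
      DenseRange.piMap fun _ => Rat.denseRange_cast
    exact this
  obtain ⟨q, hq⟩ := hdense.exists_mem_open hUo ⟨_, hUe⟩
  set φ0 : V →ₗ[ℚ] ℚ := e.constr ℚ q with hφ0
  obtain ⟨φ, hφ⟩ := LinearMap.exists_extend φ0
  refine ⟨φ, fun y hy => ?_⟩
  have h1 : φ y = φ0 ⟨y, hmem ⟨y, hy⟩⟩ := by
    rw [← hφ]; rfl
  have h2 : φ0 ⟨y, hmem ⟨y, hy⟩⟩ = ∑ k, e.repr ⟨y, hmem ⟨y, hy⟩⟩ k * q k := by
    rw [hφ0, Module.Basis.constr_apply_fintype]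
    refine Finset.sum_congr rfl fun k _ => ?_
    rw [Module.Basis.equivFun_apply, smul_eq_mul]
  have h3 := hq ⟨y, hy⟩
  rw [h1, h2]
  have h4 : ((∑ k, e.repr ⟨y, hmem ⟨y, hy⟩⟩ k * q k : ℚ) : ℝ) =
      ∑ k, ((e.repr ⟨y, hmem ⟨y, hy⟩⟩ k : ℚ) : ℝ) * (q k : ℝ) := by push_cast; rfl
  rw [← h4] at h3
  exact_mod_cast h3

/-- Functions with the same multiset of values differ by a permutation. -/
theorem exists_perm_of_map_eq {T : Type*} {N : ℕ} (f g : Fin N → T)
    (h : (Finset.univ : Finset (Fin N)).val.map f = (Finset.univ : Finset (Fin N)).val.map g) :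
    ∃ σ : Equiv.Perm (Fin N), ∀ e, f e = g (σ e) := by
  classical
  have hc : ∀ (f : Fin N → T) (t : T), Fintype.card {e // f e = t} =
      ((Finset.univ : Finset (Fin N)).val.map f).count t := by
    intro f t
    rw [Multiset.count_map, Fintype.card_subtype]
    rw [Finset.card_def, Finset.filter_val]
    congr 1
    apply Multiset.filter_congr
    intro x _
    exact eq_comm
  have h2 : ∀ t, Nonempty ({e // f e = t} ≃ {e // g e = t}) := by
    intro t
    apply Fintype.card_eq.mp
    rw [hc f t, hc g t, h]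
  let E : ∀ t, {e // f e = t} ≃ {e // g e = t} := fun t => Classical.choice (h2 t)
  refine ⟨(Equiv.sigmaFiberEquiv f).symm.trans ((Equiv.sigmaCongrRight E).trans
    (Equiv.sigmaFiberEquiv g)), fun e => ?_⟩
  have h3 : ((Equiv.sigmaFiberEquiv f).symm.trans ((Equiv.sigmaCongrRight E).trans
    (Equiv.sigmaFiberEquiv g))) e = ((E (f e)) ⟨e, rfl⟩ : Fin N) := rfl
  rw [h3]
  exact ((E (f e)) ⟨e, rfl⟩).2.symm

theorem exists_fn_of_card {X : Type*} (s : Multiset X) (N : ℕ) (h : Multiset.card s = N) :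
    ∃ x : Fin N → X, (Finset.univ : Finset (Fin N)).val.map x = s := by
  induction s using Quotient.inductionOn with
  | h l =>
    have h' : l.length = N := by simpa using h
    subst h'
    refine ⟨l.get, ?_⟩
    rw [Fin.univ_val_map]
    simp

/-- T5: from real weights to permutations (with `0 < n`). -/
theorem stRat : ∀ (n : ℕ) (T X : Type) (p : Fin n → X → T) (x₀ : X) (w : X →₀ ℝ), 0 < n →
    (∀ x, 0 ≤ w x) → 0 < w x₀ →
    (∀ i j, w.mapDomain (p i) = w.mapDomain (p j)) →
    ∃ N₀ : ℕ, 0 < N₀ ∧ ∀ m : ℕ, 0 < m →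
      ∃ (x : Fin (N₀ * m) → X) (π : Fin n → Equiv.Perm (Fin (N₀ * m))) (v : Fin (N₀ * m) → T),
        (∀ i e, p i (x e) = v (π i e)) ∧ ∃ e, x e = x₀ := by
  classical
  intro n T X p x₀ w hn hw0 hwx hw
  obtain ⟨φ, hφ⟩ := exists_pos_functional (w.support.image w) (by
    intro y hy
    obtain ⟨x, hx, rfl⟩ := Finset.mem_image.mp hy
    exact lt_of_le_of_ne (hw0 x) (Ne.symm (Finsupp.mem_support_iff.mp hx)))
  set W : X →₀ ℚ := w.mapRange φ (map_zero φ) with hWdef
  have hWx : ∀ x, 0 ≤ W x := by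
    intro x
    by_cases hx : x ∈ w.support
    · exact (hφ _ (Finset.mem_image_of_mem _ hx)).le
    · simp [hWdef, Finsupp.notMem_support_iff.mp hx]
  have hWx0 : 0 < W x₀ :=
    hφ _ (Finset.mem_image_of_mem _ (Finsupp.mem_support_iff.mpr hwx.ne'))
  have hWm : ∀ i j, W.mapDomain (p i) = W.mapDomain (p j) := by
    intro i j
    rw [hWdef, Finsupp.mapDomain_mapRange _ _ _ _ (map_add φ),
      Finsupp.mapDomain_mapRange _ _ _ _ (map_add φ), hw i j]
  -- clear denominators
  set D : ℕ := ∏ x ∈ W.support, (W x).den with hD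
  have hD0 : 0 < D := Finset.prod_pos fun x _ => (W x).pos
  have hDx : ∀ x, ∃ k : ℕ, (k : ℚ) = D * W x := by
    intro x
    by_cases hx : x ∈ W.support
    · have h1 : (W x).den ∣ D := Finset.dvd_prod_of_mem (fun x => (W x).den) hx
      obtain ⟨r, hr⟩ := h1
      refine ⟨((W x).num * r).toNat, ?_⟩
      have h2 : 0 ≤ (W x).num * r := mul_nonneg (Rat.num_nonneg.mpr (hWx x)) (by positivity)
      have h3 : ((((W x).num * r).toNat : ℤ) : ℚ) = (((W x).num * r : ℤ) : ℚ) := by
        rw [Int.toNat_of_nonneg h2]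
      have h4 : ((((W x).num * r).toNat : ℕ) : ℚ) = ((((W x).num * r).toNat : ℤ) : ℚ) := by
        norm_cast
      rw [h4, h3, hr]
      push_cast
      have h5 : (W x) * ((W x).den : ℚ) = ((W x).num : ℚ) := Rat.mul_den_eq_num _
      rw [← h5]; ring
    · exact ⟨0, by simp [Finsupp.notMem_support_iff.mp hx]⟩
  choose k hk using hDx
  set u : X →₀ ℕ := Finsupp.onFinset W.support k (by
    intro x hx
    rw [Finsupp.mem_support_iff]
    intro h0
    apply hx
    have := hk x
    rw [h0, mul_zero] at this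
    exact_mod_cast this) with hu
  have hux : ∀ x, ((u x : ℕ) : ℚ) = D * W x := fun x => hk x
  have hux0 : 0 < u x₀ := by
    have h1 : (0 : ℚ) < ((u x₀ : ℕ) : ℚ) := by
      rw [hux]
      have : (0 : ℚ) < D := by exact_mod_cast hD0
      positivity
    exact_mod_cast h1
  have hucast : u.mapRange (Nat.cast : ℕ → ℚ) Nat.cast_zero = (D : ℚ) • W := by
    ext x
    simp [hux]
  have hum : ∀ i j, u.mapDomain (p i) = u.mapDomain (p j) := by
    intro i j
    apply Finsupp.mapRange_injective (Nat.cast : ℕ → ℚ) Nat.cast_zero Nat.cast_injective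
    rw [← Finsupp.mapDomain_mapRange _ _ _ _ Nat.cast_add,
      ← Finsupp.mapDomain_mapRange _ _ _ _ Nat.cast_add, hucast,
      Finsupp.mapDomain_smul, Finsupp.mapDomain_smul, hWm i j]
  set s0 : Multiset X := Finsupp.toMultiset u with hs0
  have hx0s : x₀ ∈ s0 := by
    rw [hs0, Finsupp.mem_toMultiset]
    exact Finsupp.mem_support_iff.mpr hux0.ne'
  refine ⟨Multiset.card s0, Multiset.card_pos_iff_exists_mem.mpr ⟨x₀, hx0s⟩, fun m hm => ?_⟩
  obtain ⟨x, hx⟩ := exists_fn_of_card (m • s0) (Multiset.card s0 * m) (by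
    rw [Multiset.card_nsmul, mul_comm])
  have hmaps : ∀ i j, s0.map (p i) = s0.map (p j) := by
    intro i j
    rw [hs0, Finsupp.toMultiset_map, Finsupp.toMultiset_map, hum i j]
  have hperm : ∀ i, ∃ σ : Equiv.Perm (Fin (Multiset.card s0 * m)),
      ∀ e, (p i ∘ x) e = (p ⟨0, hn⟩ ∘ x) (σ e) := by
    intro i
    apply exists_perm_of_map_eq
    rw [← Multiset.map_map, ← Multiset.map_map, hx, Multiset.map_nsmul, Multiset.map_nsmul,
      hmaps i ⟨0, hn⟩]
  choose π hπ using hperm
  refine ⟨x, π, p ⟨0, hn⟩ ∘ x, fun i e => hπ i e, ?_⟩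
  have : x₀ ∈ (Finset.univ : Finset (Fin (Multiset.card s0 * m))).val.map x := by
    rw [hx]
    exact Multiset.mem_nsmul.mpr ⟨hm.ne', hx0s⟩
  obtain ⟨e, -, he⟩ := Multiset.mem_map.mp this
  exact ⟨e, he⟩

end Pool.Agent.Y500.Sm
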