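import Pool.Agent.Y794.Sm.Stmts

/-!
The polygon lemma (job 223 of helper794, MP_ed3ef1_nt).
-/

set_option autoImplicit false

namespace Pool.Agent.Y500.Sm

open Finset

/-- The conclusion of the polygon lemma. -/
def PP (n : ℕ) (b : Fin (n + 1) → ℝ) : Prop :=
  ∃ u : Fin (n + 1) → Fin n → ℝ,
      (∀ j, ∑ k, u j k ^ 2 = 1) ∧ (∀ k, ∑ j, b j * u j k = 0) ∧
      (∀ z : Fin n → ℝ, (∀ j, ∑ k, u j k * z k = 0) → z = 0) ∧
      (∀ i j, i ≠ j → |∑ k, u i k * u j k| < 1)

theorem PP_perm (n : ℕ) (b : Fin (n + 1) → ℝ) (σ : Equiv.Perm (Fin (n + 1)))
    (h : PP n (b ∘ σ)) : PP n b := by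
  obtain ⟨u, h1, h2, h3, h4⟩ := h
  refine ⟨fun j => u (σ.symm j), fun j => h1 _, fun k => ?_, fun z hz => ?_, fun i j hij => ?_⟩
  · rw [← h2 k]
    rw [← Equiv.sum_comp σ (fun j => b j * u (σ.symm j) k)]
    simp
  · apply h3
    intro j
    have := hz (σ j)
    simpa using this
  · apply h4
    exact fun h => hij (σ.symm.injective h)

theorem triangle (p q c : ℝ) (hp : 0 < p) (hq : 0 < q) (hc : 0 < c) (h1 : c < p + q)
    (h2 : p < q + c) (h3 : q < p + c) :
    ∃ a s b t : ℝ, 0 < s ∧ 0 < t ∧ a ^ 2 + s ^ 2 = 1 ∧ b ^ 2 + t ^ 2 = 1 ∧ p * a + q * b = c ∧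
      p * s = q * t := by
  set a : ℝ := (c ^ 2 + p ^ 2 - q ^ 2) / (2 * c * p) with ha
  have hcp : 0 < 2 * c * p := by positivity
  have ha1 : a ^ 2 < 1 := by
    rw [ha, div_pow, div_lt_one (by positivity)]
    have e : (2 * c * p) ^ 2 - (c ^ 2 + p ^ 2 - q ^ 2) ^ 2 =
        (p + q + c) * (p + c - q) * (q + c - p) * (p + q - c) := by ring
    have : 0 < (p + q + c) * (p + c - q) * (q + c - p) * (p + q - c) := by
      have h4 : 0 < p + q + c := by linarith
      have h5 : 0 < p + c - q := by linarith
      have h6 : 0 < q + c - p := by linarith
      have h7 : 0 < p + q - c := by linarith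
      positivity
    linarith
  set s : ℝ := Real.sqrt (1 - a ^ 2) with hs
  have hs0 : 0 < s := Real.sqrt_pos.mpr (by linarith)
  have hs2 : s ^ 2 = 1 - a ^ 2 := Real.sq_sqrt (by linarith)
  refine ⟨a, s, (c ^ 2 + q ^ 2 - p ^ 2) / (2 * c * q), p / q * s, hs0, by positivity, by linarith,
    ?_, ?_, ?_⟩
  · rw [mul_pow, hs2, ha]
    field_simp
    ring
  · rw [ha]
    field_simp
    ring
  · field_simp

theorem PP_step (m : ℕ) (b : Fin (m + 2) → ℝ) (c : ℝ)
    (hp : 0 < b (Fin.castSucc (Fin.last m))) (hq : 0 < b (Fin.last (m + 1))) (hc : 0 < c)
    (h1 : c < b (Fin.castSucc (Fin.last m)) + b (Fin.last (m + 1)))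
    (h2 : b (Fin.castSucc (Fin.last m)) < b (Fin.last (m + 1)) + c)
    (h3 : b (Fin.last (m + 1)) < b (Fin.castSucc (Fin.last m)) + c)
    (v : Fin m → Fin m → ℝ) (w : Fin m → ℝ)
    (hv1 : ∀ j, ∑ k, v j k ^ 2 = 1) (hw1 : ∑ k, w k ^ 2 = 1)
    (hs : ∀ k, ∑ j : Fin m, b (Fin.castSucc (Fin.castSucc j)) * v j k + c * w k = 0)
    (hsp : ∀ z : Fin m → ℝ, (∀ j, ∑ k, v j k * z k = 0) → ∑ k, w k * z k = 0 → z = 0)
    (hvv : ∀ i j, i ≠ j → |∑ k, v i k * v j k| < 1)
    (hvw : ∀ i, |∑ k, v i k * w k| ≤ 1) :
    PP (m + 1) b := by
  obtain ⟨a, s, a', t, hs0, ht0, has, hat, hac, hst⟩ :=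
    triangle _ _ c hp hq hc h1 h2 h3
  set p := b (Fin.castSucc (Fin.last m))
  set q := b (Fin.last (m + 1))
  have ha1 : |a| < 1 := by
    rw [abs_lt]
    constructor <;> nlinarith
  have ha'1 : |a'| < 1 := by
    rw [abs_lt]
    constructor <;> nlinarith
  have hsmall : ∀ (r x : ℝ), |r| < 1 → |x| ≤ 1 → |r * x| < 1 := by
    intro r x hr hx
    rw [abs_mul]
    calc |r| * |x| ≤ |r| * 1 := mul_le_mul_of_nonneg_left hx (abs_nonneg _)
      _ < 1 := by linarith
  have hvw' : ∀ i, |∑ k, w k * v i k| ≤ 1 := by
    intro i
    have : ∑ k, w k * v i k = ∑ k, v i k * w k := Finset.sum_congr rfl fun k _ => mul_comm _ _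
    rw [this]; exact hvw i
  -- product of the two new vectors
  have hAB : |a * a' - s * t| < 1 := by
    have e1 : (a * a' - s * t) ^ 2 + (s * a' + a * t) ^ 2 = 1 := by
      have : (a * a' - s * t) ^ 2 + (s * a' + a * t) ^ 2 = (a ^ 2 + s ^ 2) * (a' ^ 2 + t ^ 2) := by
        ring
      rw [this, has, hat, one_mul]
    have e2 : 0 < s * a' + a * t := by
      have : q * (s * a' + a * t) = s * c := by
        calc q * (s * a' + a * t) = s * (q * a') + a * (q * t) := by ring
          _ = s * (q * a') + a * (p * s) := by rw [hst]
          _ = s * (p * a + q * a') := by ring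
          _ = s * c := by rw [hac]
      have h : 0 < q * (s * a' + a * t) := by rw [this]; positivity
      exact (pos_iff_pos_of_mul_pos h).mp hq
    rw [← sq_lt_one_iff_abs_lt_one]
    nlinarith
  have cross : ∀ x y : ℝ, ∑ k, x * w k * (y * w k) = x * y := by
    intro x y
    have : ∀ k, x * w k * (y * w k) = (x * y) * w k ^ 2 := fun k => by ring
    simp only [this, ← Finset.mul_sum, hw1, mul_one]
  refine ⟨Fin.snoc (Fin.snoc (fun j => Fin.snoc (v j) (0 : ℝ))
      (Fin.snoc (fun k => a * w k) s)) (Fin.snoc (fun k => a' * w k) (-t)), ?_, ?_, ?_, ?_⟩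
  · intro j
    induction j using Fin.lastCases with
    | last =>
      simp only [Fin.snoc_last, Fin.sum_univ_castSucc, Fin.snoc_castSucc, mul_pow,
        ← Finset.mul_sum, hw1]
      linarith
    | cast j =>
      induction j using Fin.lastCases with
      | last =>
        simp only [Fin.snoc_last, Fin.sum_univ_castSucc, Fin.snoc_castSucc, mul_pow,
          ← Finset.mul_sum, hw1]
        linarith
      | cast j =>
        simp only [Fin.snoc_last, Fin.sum_univ_castSucc, Fin.snoc_castSucc, hv1]
        norm_num
  · intro k
    induction k using Fin.lastCases with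
    | last =>
      simp only [Fin.snoc_last, Fin.sum_univ_castSucc, Fin.snoc_castSucc, mul_zero,
        Finset.sum_const_zero]
      linarith
    | cast k =>
      simp only [Fin.snoc_last, Fin.sum_univ_castSucc, Fin.snoc_castSucc]
      have := hs k
      have e : p * (a * w k) + q * (a' * w k) = c * w k := by rw [← hac]; ring
      linarith
  · intro z hz
    have hz1 : ∀ j : Fin m, ∑ k : Fin m, v j k * z (Fin.castSucc k) = 0 := by
      intro j
      have := hz (Fin.castSucc (Fin.castSucc j))
      simp only [Fin.snoc_last, Fin.sum_univ_castSucc, Fin.snoc_castSucc, zero_mul,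
        add_zero] at this
      exact this
    have hz2 : a * (∑ k : Fin m, w k * z (Fin.castSucc k)) + s * z (Fin.last m) = 0 := by
      have := hz (Fin.castSucc (Fin.last m))
      simp only [Fin.snoc_last, Fin.sum_univ_castSucc, Fin.snoc_castSucc] at this
      rw [Finset.mul_sum]
      simpa [mul_assoc] using this
    have hz3 : a' * (∑ k : Fin m, w k * z (Fin.castSucc k)) - t * z (Fin.last m) = 0 := by
      have := hz (Fin.last (m + 1))
      simp only [Fin.snoc_last, Fin.sum_univ_castSucc, Fin.snoc_castSucc] at this
      rw [Finset.mul_sum]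
      have e : ∑ k : Fin m, a' * (w k * z (Fin.castSucc k)) =
        ∑ k : Fin m, a' * w k * z (Fin.castSucc k) := Finset.sum_congr rfl fun k _ => by ring
      rw [e]
      linarith
    set W := ∑ k : Fin m, w k * z (Fin.castSucc k)
    have hW : c * W = 0 := by
      calc c * W = p * (a * W + s * z (Fin.last m)) + q * (a' * W - t * z (Fin.last m))
          - (p * s - q * t) * z (Fin.last m) := by rw [← hac]; ring
        _ = 0 := by rw [hz2, hz3, hst]; ring
    have hW0 : W = 0 := by
      rcases mul_eq_zero.mp hW with h | h
      · exact absurd h hc.ne'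
      · exact h
    have hl : z (Fin.last m) = 0 := by
      rw [hW0, mul_zero, zero_add] at hz2
      rcases mul_eq_zero.mp hz2 with h | h
      · exact absurd h hs0.ne'
      · exact h
    have hz' : (fun k : Fin m => z (Fin.castSucc k)) = 0 := hsp _ hz1 hW0
    funext k
    induction k using Fin.lastCases with
    | last => simpa using hl
    | cast k => simpa using congrFun hz' k
  · intro i j hij
    induction i using Fin.lastCases with
    | last =>
      induction j using Fin.lastCases with
      | last => exact absurd rfl hij
      | cast j =>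
        induction j using Fin.lastCases with
        | last =>
          simp only [Fin.snoc_last, Fin.sum_univ_castSucc, Fin.snoc_castSucc, cross]
          have : a' * a + -t * s = a * a' - s * t := by ring
          rw [this]; exact hAB
        | cast j =>
          simp only [Fin.snoc_last, Fin.sum_univ_castSucc, Fin.snoc_castSucc, mul_zero, add_zero]
          have : ∑ k, a' * w k * v j k = a' * ∑ k, w k * v j k := by
            rw [Finset.mul_sum]; exact Finset.sum_congr rfl fun k _ => by ring
          rw [this]
          exact hsmall _ _ ha'1 (hvw' j)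
    | cast i =>
      induction i using Fin.lastCases with
      | last =>
        induction j using Fin.lastCases with
        | last =>
          simp only [Fin.snoc_last, Fin.sum_univ_castSucc, Fin.snoc_castSucc, cross]
          have : a * a' + s * -t = a * a' - s * t := by ring
          rw [this]; exact hAB
        | cast j =>
          induction j using Fin.lastCases with
          | last => exact absurd rfl hij
          | cast j =>
            simp only [Fin.snoc_last, Fin.sum_univ_castSucc, Fin.snoc_castSucc, mul_zero, add_zero]
            have : ∑ k, a * w k * v j k = a * ∑ k, w k * v j k := by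
              rw [Finset.mul_sum]; exact Finset.sum_congr rfl fun k _ => by ring
            rw [this]
            exact hsmall _ _ ha1 (hvw' j)
      | cast i =>
        induction j using Fin.lastCases with
        | last =>
          simp only [Fin.snoc_last, Fin.sum_univ_castSucc, Fin.snoc_castSucc, zero_mul, add_zero]
          have : ∑ k, v i k * (a' * w k) = a' * ∑ k, v i k * w k := by
            rw [Finset.mul_sum]; exact Finset.sum_congr rfl fun k _ => by ring
          rw [this]
          exact hsmall _ _ ha'1 (hvw i)
        | cast j =>
          induction j using Fin.lastCases with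
          | last =>
            simp only [Fin.snoc_last, Fin.sum_univ_castSucc, Fin.snoc_castSucc, zero_mul, add_zero]
            have : ∑ k, v i k * (a * w k) = a * ∑ k, v i k * w k := by
              rw [Finset.mul_sum]; exact Finset.sum_congr rfl fun k _ => by ring
            rw [this]
            exact hsmall _ _ ha1 (hvw i)
          | cast j =>
            simp only [Fin.snoc_last, Fin.sum_univ_castSucc, Fin.snoc_castSucc, mul_zero, add_zero]
            apply hvv
            rintro rfl
            exact hij rfl

/-- Cauchy inequality for unit vectors. -/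
theorem dot_le (m : ℕ) (x y : Fin m → ℝ) (hx : ∑ k, x k ^ 2 = 1) (hy : ∑ k, y k ^ 2 = 1) :
    |∑ k, x k * y k| ≤ 1 := by
  have h := Finset.sum_mul_sq_le_sq_mul_sq Finset.univ x y
  rw [hx, hy, one_mul] at h
  rwa [sq_le_one_iff_abs_le_one] at h

/-- The hypothesis in terms of the full sum. -/
theorem hyp_iff (n : ℕ) (b : Fin (n + 1) → ℝ) (i : Fin (n + 1)) :
    (b i < ∑ j ∈ Finset.univ.erase i, b j) ↔ 2 * b i < ∑ j, b j := by
  rw [← Finset.add_sum_erase Finset.univ b (Finset.mem_univ i)]
  constructor <;> intro h <;> linarith

theorem main (n : ℕ) : ∀ b : Fin (n + 1) → ℝ, (∀ i, 0 ≤ b i) →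
    (∀ i, 2 * b i < ∑ j, b j) → PP n b := by
  induction n with
  | zero =>
    intro b h0 h
    exfalso
    have := h 0
    simp at this
    linarith [h0 0]
  | succ m ih =>
    intro b h0 h
    rcases Nat.eq_zero_or_pos m with hm | hm
    · subst hm
      exfalso
      have h1 := h 0
      have h2 := h 1
      rw [Fin.sum_univ_two] at h1 h2
      linarith
    by_cases hz : ∃ i, b i = 0
    · obtain ⟨i, hi⟩ := hz
      apply PP_perm _ _ (Equiv.swap i (Fin.last (m + 1)))
      set b' := b ∘ Equiv.swap i (Fin.last (m + 1)) with hb'
      have hb'0 : ∀ j, 0 ≤ b' j := fun j => h0 _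
      have hsum : ∑ j, b' j = ∑ j, b j := Equiv.sum_comp _ _
      have hb'h : ∀ j, 2 * b' j < ∑ j, b' j := by
        intro j; rw [hsum]; exact h _
      have hlast : b' (Fin.last (m + 1)) = 0 := by simp [hb', hi]
      obtain ⟨u, h1, h2, h3, h4⟩ := ih (fun j => b' (Fin.castSucc j)) (fun j => hb'0 _) (by
        intro j
        have := hb'h (Fin.castSucc j)
        rw [Fin.sum_univ_castSucc, hlast, add_zero] at this
        exact this)
      refine ⟨Fin.snoc (fun j => Fin.snoc (u j) (0 : ℝ)) (Fin.snoc (fun _ => (0 : ℝ)) 1),
        ?_, ?_, ?_, ?_⟩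
      · intro j
        induction j using Fin.lastCases with
        | last =>
          simp only [Fin.snoc_last]
          rw [Fin.sum_univ_castSucc]
          simp
        | cast j =>
          simp only [Fin.snoc_castSucc]
          rw [Fin.sum_univ_castSucc]
          simp [h1]
      · intro k
        induction k using Fin.lastCases with
        | last =>
          rw [Fin.sum_univ_castSucc]
          simp [hlast]
        | cast k =>
          rw [Fin.sum_univ_castSucc]
          simp [hlast, h2]
      · intro z hz
        have hz1 : ∀ j : Fin (m + 1), ∑ k : Fin m, u j k * z (Fin.castSucc k) = 0 := by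
          intro j
          have := hz (Fin.castSucc j)
          simp only [Fin.snoc_castSucc] at this
          rw [Fin.sum_univ_castSucc] at this
          simpa using this
        have hz2 : z (Fin.last m) = 0 := by
          have := hz (Fin.last (m + 1))
          simp only [Fin.snoc_last] at this
          rw [Fin.sum_univ_castSucc] at this
          simpa using this
        have hz' := h3 (fun k => z (Fin.castSucc k)) hz1
        funext k
        induction k using Fin.lastCases with
        | last => simpa using hz2
        | cast k => simpa using congrFun hz' k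
      · intro i j hij
        induction i using Fin.lastCases with
        | last =>
          induction j using Fin.lastCases with
          | last => exact absurd rfl hij
          | cast j =>
            simp only [Fin.snoc_castSucc, Fin.snoc_last]
            rw [Fin.sum_univ_castSucc]
            simp
        | cast i =>
          induction j using Fin.lastCases with
          | last =>
            simp only [Fin.snoc_castSucc, Fin.snoc_last]
            rw [Fin.sum_univ_castSucc]
            simp
          | cast j =>
            simp only [Fin.snoc_castSucc]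
            rw [Fin.sum_univ_castSucc]
            have : i ≠ j := by rintro rfl; exact hij rfl
            simpa using h4 i j this
    · push Not at hz
      have hpos : ∀ i, 0 < b i := fun i => lt_of_le_of_ne (h0 i) (Ne.symm (hz i))
      set p := b (Fin.castSucc (Fin.last m)) with hp
      set q := b (Fin.last (m + 1)) with hq
      set S := ∑ j : Fin m, b (Fin.castSucc (Fin.castSucc j)) with hS
      have hsum : ∑ j, b j = S + p + q := by
        rw [Fin.sum_univ_castSucc, Fin.sum_univ_castSucc]
      have hp0 : 0 < p := hpos _
      have hq0 : 0 < q := hpos _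
      have hpS : p < q + S := by
        have := h (Fin.castSucc (Fin.last m))
        rw [hsum] at this
        linarith
      have hqS : q < p + S := by
        have := h (Fin.last (m + 1))
        rw [hsum] at this
        linarith
      have hjS : ∀ j : Fin m, 2 * b (Fin.castSucc (Fin.castSucc j)) < S + p + q := by
        intro j
        have := h (Fin.castSucc (Fin.castSucc j))
        rwa [hsum] at this
      rcases Nat.lt_or_ge m 2 with hm2 | hm2
      · -- m = 1
        obtain rfl : m = 1 := by omega
        have hS1 : S = b (Fin.castSucc (Fin.castSucc 0)) := by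
          rw [hS]; simp
        have hS0 : 0 < S := by rw [hS1]; exact hpos _
        refine PP_step 1 b S hp0 hq0 hS0 ?_ hpS hqS (fun _ _ => 1) (fun _ => -1) ?_ ?_ ?_ ?_ ?_ ?_
        · have := hjS 0
          rw [← hS1] at this
          linarith
        · intro j; simp
        · simp
        · intro k
          simp only [mul_one, mul_neg]
          rw [← hS]; ring
        · intro z hz _
          have := hz 0
          funext k
          fin_cases k
          simpa using this
        · intro i j hij
          exact absurd (Subsingleton.elim i j) hij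
        · intro i; simp
      · -- m ≥ 2
        have : NeZero m := ⟨by omega⟩
        obtain ⟨j0, -, hj0⟩ := Finset.exists_max_image (Finset.univ : Finset (Fin m))
          (fun j => b (Fin.castSucc (Fin.castSucc j))) ⟨0, Finset.mem_univ _⟩
        have hj0S : b (Fin.castSucc (Fin.castSucc j0)) < S := by
          obtain ⟨j1, hj1⟩ : ∃ j1 : Fin m, j1 ≠ j0 := by
            have : Nontrivial (Fin m) := Fin.nontrivial_iff_two_le.mpr hm2
            exact exists_ne j0
          rw [hS, ← Finset.add_sum_erase _ _ (Finset.mem_univ j0)]
          have : 0 < ∑ x ∈ Finset.univ.erase j0, b (Fin.castSucc (Fin.castSucc x)) := by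
            apply Finset.sum_pos
            · intro i _; exact hpos _
            · exact ⟨j1, Finset.mem_erase.mpr ⟨hj1, Finset.mem_univ _⟩⟩
          linarith
        have hlt : max |p - q| (2 * b (Fin.castSucc (Fin.castSucc j0)) - S) < min (p + q) S := by
          rw [max_lt_iff, lt_min_iff, lt_min_iff]
          refine ⟨⟨?_, ?_⟩, ⟨?_, ?_⟩⟩
          · rw [abs_lt]; constructor <;> linarith
          · rw [abs_lt]; constructor <;> linarith
          · linarith [hjS j0]
          · linarith
        obtain ⟨c, hc1, hc2⟩ := exists_between hlt
        rw [max_lt_iff] at hc1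
        rw [lt_min_iff] at hc2
        obtain ⟨hc1a, hc1b⟩ := hc1
        obtain ⟨hc2a, hc2b⟩ := hc2
        have hc0 : 0 < c := lt_of_le_of_lt (abs_nonneg _) hc1a
        rw [abs_lt] at hc1a
        have hsum' : ∑ j : Fin (m + 1),
            (Fin.snoc (fun j : Fin m => b (Fin.castSucc (Fin.castSucc j))) c :
              Fin (m + 1) → ℝ) j = S + c := by
          rw [Fin.sum_univ_castSucc]
          simp only [Fin.snoc_castSucc, Fin.snoc_last]
          rw [hS]
        obtain ⟨u, h1, h2, h3, h4⟩ := ih
          (Fin.snoc (fun j : Fin m => b (Fin.castSucc (Fin.castSucc j))) c) (by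
            intro j
            induction j using Fin.lastCases with
            | last => simp only [Fin.snoc_last]; exact hc0.le
            | cast j => simp only [Fin.snoc_castSucc]; exact h0 _) (by
            intro j
            rw [hsum']
            induction j using Fin.lastCases with
            | last => simp only [Fin.snoc_last]; linarith
            | cast j =>
              simp only [Fin.snoc_castSucc]
              have := hj0 j (Finset.mem_univ _)
              linarith)
        refine PP_step m b c hp0 hq0 hc0 hc2a (by linarith) (by linarith)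
          (fun j => u (Fin.castSucc j)) (u (Fin.last m)) (fun j => h1 _) (h1 _) ?_ ?_ ?_ ?_
        · intro k
          have := h2 k
          rw [Fin.sum_univ_castSucc] at this
          simpa only [Fin.snoc_castSucc, Fin.snoc_last] using this
        · intro z hz1 hz2
          apply h3
          intro j
          induction j using Fin.lastCases with
          | last => exact hz2
          | cast j => exact hz1 j
        · intro i j hij
          apply h4
          intro hh
          exact hij (Fin.castSucc_injective _ hh)
        · intro i
          exact dot_le _ _ _ (h1 _) (h1 _)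

/-- T7a: the polygon lemma. -/
theorem stPoly : Pool.Agent.Y794.Sm.StPoly := by
  intro n b h0 h
  exact main n b h0 fun i => (hyp_iff n b i).mp (h i)

end Pool.Agent.Y500.Sm
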